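import Pool.Agent.W_258ae1_h35.Core

/-!
The `(k + 1)`-star avoidance game: the class of the graphs of selected pairs in which PII can match
all vertices of `D`, and its main step.
-/

namespace Pool.Agent.W_258ae1_h35

open Finset

variable {n k : ℕ}

theorem card_erase2 {D : Finset (Fin n)} {x z : Fin n} (hx : x ∈ D) (hz : z ∈ D) (hzx : z ≠ x) :
    ((D.erase x).erase z).card + 2 = D.card := by
  have h1 := Finset.card_erase_add_one hx
  have h2 := Finset.card_erase_add_one (Finset.mem_erase.2 ⟨hzx, hz⟩)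
  omega

theorem red {C : Finset (Sym2 (Fin n))} (hC : NoD C) {D : Finset (Fin n)} {x z : Fin n}
    (hx : x ∈ D) (hz : z ∈ D) (hzx : z ≠ x) (hfr : s(x, z) ∉ C) :
    EE C D = EE C ((D.erase x).erase z) + 2 * nb C D x + 2 * nb C D z := by
  rw [EE_erase hC hx, EE_erase hC (Finset.mem_erase.2 ⟨hzx, hz⟩)]
  have h1 := nb_erase (C := C) hx z
  rw [Sym2.eq_swap, if_neg hfr, add_zero] at h1
  rw [← h1]
  ring

theorem two_nb_le {C : Finset (Sym2 (Fin n))} (hC : NoD C) {D : Finset (Fin n)} {x : Fin n}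
    (hx : x ∈ D) : 2 * nb C D x ≤ EE C D := by
  rw [EE_erase hC hx]
  omega

theorem EE_le {C : Finset (Sym2 (Fin n))} {D : Finset (Fin n)} {m : ℕ}
    (h : ∀ v ∈ D, nb C D v ≤ m) : EE C D ≤ D.card * m := by
  unfold EE
  rw [← smul_eq_mul]
  exact Finset.sum_le_card_nsmul _ _ _ h

/-- The class: `2 h` vertices with at most `h (h - 1) / 2` selected pairs, and less of them if there
is a vertex of large degree. -/
structure Cls (C : Finset (Sym2 (Fin n))) (D : Finset (Fin n)) (h : ℕ) : Prop where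
  card : D.card = 2 * h
  A : EE C D + h ≤ h * h
  Bp : ∀ v ∈ D, ∀ p : ℕ, 1 ≤ p → 2 * p ≤ h → 2 * h ≤ nb C D v + 2 * p →
    EE C D + 4 * (p * p) < 4 * (p * h)

theorem Cls.deg {C : Finset (Sym2 (Fin n))} (hC : NoD C) {D : Finset (Fin n)} {h : ℕ}
    (hh : 2 ≤ h) (H : Cls C D h) : ∀ v ∈ D, nb C D v + 3 ≤ 2 * h := by
  intro v hv
  by_contra hcon
  have h1 := H.Bp v hv 1 le_rfl (by omega) (by omega)
  have h2 := two_nb_le hC hv
  omega

/-- The class does not change if a pair outside of `D` is inserted. -/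
theorem Cls.out {C : Finset (Sym2 (Fin n))} {D : Finset (Fin n)} {h : ℕ} (H : Cls C D h)
    {x z : Fin n} (hx : x ∉ D) (hz : z ∉ D) : Cls (insert s(x, z) C) D h := by
  refine ⟨H.card, ?_, ?_⟩
  · rw [EE_insert_out hx hz]
    exact H.A
  · intro v hv p h1 h2 h3
    rw [nb_insert_out hx hz hv] at h3
    rw [EE_insert_out hx hz]
    exact H.Bp v hv p h1 h2 h3

theorem arithA {h m q E1 E2 : ℕ} (hh : 1 ≤ h) (hqm : q ≤ m) (hr : E1 = E2 + 2 * m + 2 * q)
    (h1 : E1 + h ≤ h * h + 2) (h2 : E1 + (m + 1) * q ≤ m * (m + 1) + 2 * h * q) :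
    E2 + (h - 1) ≤ (h - 1) * (h - 1) := by
  obtain ⟨g, rfl⟩ : ∃ g, h = g + 1 := ⟨h - 1, by omega⟩
  rw [Nat.add_sub_cancel]
  rcases Nat.lt_or_ge (m + q) (g + 1) with h3 | h3
  · obtain ⟨d, rfl⟩ : ∃ d, g = m + q + d := ⟨g - (m + q), by omega⟩
    obtain ⟨a, rfl⟩ : ∃ a, m = q + a := ⟨m - q, by omega⟩
    have h4 : d ≤ d * d := by
      rcases Nat.eq_zero_or_pos d with h5 | h5
      · simp [h5]
      · exact Nat.le_mul_of_pos_left d h5
    have h6 : 0 ≤ q * a := Nat.zero_le _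
    have h7 : 0 ≤ (q + a) * d := Nat.zero_le _
    nlinarith
  · nlinarith

theorem arithB1 {h m q E E1 E2 p : ℕ} (hr : E1 = E2 + 2 * m + 2 * q) (hE : E1 ≤ E + 2)
    (h1 : 2 * h ≤ m + 2 * p + 1)
    (h2 : E + 4 * ((p + 1) * (p + 1)) < 4 * ((p + 1) * h)) :
    E2 + 4 * (p * p) + 4 * p < 4 * (p * h) := by
  nlinarith

theorem arithB2 {h m q E E1 E2 p : ℕ} (hr : E1 = E2 + 2 * m + 2 * q) (hE : E1 ≤ E + 2)
    (h0 : q ≤ m) (h1 : 2 * h ≤ q + 2 * p + 2)
    (h2 : E + 4 * ((p + 2) * (p + 2)) < 4 * ((p + 2) * h)) :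
    E2 + 4 * (p * p) + 4 * p < 4 * (p * h) := by
  nlinarith

/-- **The main step.** -/
theorem Cls.step {C : Finset (Sym2 (Fin n))} (hC : NoD C) {D : Finset (Fin n)} {h : ℕ}
    (hh : 2 ≤ h) (H : Cls C D h) {e : Sym2 (Fin n)} (he : ¬ e.IsDiag) :
    ∃ x ∈ D, ∃ z ∈ D, z ≠ x ∧ s(x, z) ∉ insert e C ∧
      Cls (insert e C) ((D.erase x).erase z) (h - 1) := by
  have hC' : NoD (insert e C) := hC.insert he
  have hd := H.deg hC hh
  have hcard := H.card
  obtain ⟨x, hx, z, hz, hzx, hfr, hm, hp, hdi⟩ := exists_pair hC' (D := D) (by omega)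
    (fun v hv => by
      have h1 := nb_insert_le' C D e v
      have h2 := hd v hv
      omega)
  refine ⟨x, hx, z, hz, hzx, hfr, ?_⟩
  have hc := card_erase2 hx hz hzx
  have hr := red hC' hx hz hzx hfr
  have hE := EE_insert_le C D he
  have hA := H.A
  have hqm := hm z hz
  have hmx := nb_insert_le' C D e x
  have hB := H.Bp x hx
  rw [hcard] at hp
  obtain ⟨E, hE0⟩ : ∃ E, EE C D = E := ⟨_, rfl⟩
  obtain ⟨E1, hE1⟩ : ∃ E1, EE (insert e C) D = E1 := ⟨_, rfl⟩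
  obtain ⟨E2, hE2⟩ : ∃ E2, EE (insert e C) ((D.erase x).erase z) = E2 := ⟨_, rfl⟩
  obtain ⟨m, hm'⟩ : ∃ m, nb (insert e C) D x = m := ⟨_, rfl⟩
  obtain ⟨q, hq'⟩ : ∃ q, nb (insert e C) D z = q := ⟨_, rfl⟩
  obtain ⟨m0, hm0⟩ : ∃ m0, nb C D x = m0 := ⟨_, rfl⟩
  rw [hE1, hm', hq'] at hp
  rw [hE1, hE2, hm', hq'] at hr
  rw [hE0, hE1] at hE
  rw [hE0] at hA
  rw [hq', hm'] at hqm
  rw [hm', hm0] at hmx
  rw [hm0, hE0] at hB
  refine ⟨by omega, ?_, ?_⟩
  · rw [hE2]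
    exact arithA (by omega) hqm hr (by omega) hp
  · intro v hv p hp1 hp2 hp3
    rw [hE2]
    obtain ⟨g, rfl⟩ : ∃ g, h = g + 1 := ⟨h - 1, by omega⟩
    rw [Nat.add_sub_cancel] at hp2 hp3 ⊢
    suffices hs : E2 + 4 * (p * p) + 4 * p < 4 * (p * (g + 1)) by
      rw [mul_add] at hs
      omega
    have hdv := hdi v hv
    rw [hm', hq'] at hdv
    rcases hdv with h1 | h1
    · rcases Nat.lt_or_ge (g + 1) (2 * (p + 1)) with h2 | h2
      · have h3 : g = 2 * p := by omega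
        subst h3
        have h4 : 2 * p + 1 ≤ m := by omega
        nlinarith
      · exact arithB1 hr hE (by omega) (hB (p + 1) (by omega) h2 (by omega))
    · rcases Nat.lt_or_ge (g + 1) (2 * (p + 2)) with h2 | h2
      · obtain ⟨j, rfl⟩ : ∃ j, g = 2 * p + j := ⟨g - 2 * p, by omega⟩
        have h4 : 2 * p + 2 * j ≤ q := by omega
        have h5 : j = 0 ∨ j = 1 ∨ j = 2 := by omega
        rcases h5 with rfl | rfl | rfl <;> nlinarith
      · exact arithB2 hr hE hqm (by omega) (hB (p + 2) (by omega) h2 (by omega))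

/-- The start: at least `8 k - 2` vertices at which PII has at most `k - 1` edges. -/
theorem Cls.start (hk : 1 ≤ k) {C : Finset (Sym2 (Fin n))} {L : Finset (Fin n)}
    (hL : 8 * k ≤ L.card + 2) (hd : ∀ v ∈ L, nb C L v + 1 ≤ 2 * k) :
    ∃ (h : ℕ) (D : Finset (Fin n)), 2 ≤ h ∧ D ⊆ L ∧ L.card ≤ D.card + 1 ∧ Cls C D h := by
  obtain ⟨D, hD, hc⟩ := Finset.exists_subset_card_eq (s := L) (n := 2 * (L.card / 2)) (by omega)
  have hd' : ∀ v ∈ D, nb C D v + 1 ≤ 2 * k := by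
    intro v hv
    have h1 := hd v (hD hv)
    have h2 : nb C D v ≤ nb C L v :=
      Finset.card_le_card (Finset.filter_subset_filter _ hD)
    omega
  refine ⟨L.card / 2, D, by omega, hD, by omega, hc, ?_, ?_⟩
  · have h3 : EE C D ≤ D.card * (2 * k - 1) :=
      EE_le fun v hv => by have := hd' v hv; omega
    rw [hc] at h3
    obtain ⟨h, hh⟩ : ∃ h, L.card / 2 = h := ⟨_, rfl⟩
    rw [hh] at h3 ⊢
    have h4 : 4 * k ≤ h + 1 := by omega
    obtain ⟨k', rfl⟩ : ∃ k', k = k' + 1 := ⟨k - 1, by omega⟩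
    have h5 : 2 * (k' + 1) - 1 = 2 * k' + 1 := by omega
    rw [h5] at h3
    have h6 : h * (4 * k' + 3) ≤ h * h := Nat.mul_le_mul_left h (by omega)
    nlinarith
  · intro v hv p h1 h2 h3
    have h4 := hd' v hv
    omega

end Pool.Agent.W_258ae1_h35
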