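import Pool.Agent.W_258ae1_h35.Defs

/-!
The `(k + 1)`-star avoidance game: counting of degrees and of selected pairs inside a set of
vertices.
-/

namespace Pool.Agent.W_258ae1_h35

open Finset

variable {n : ℕ}

/-- The number of the selected neighbours of `v` in `D`. -/
def nb (C : Finset (Sym2 (Fin n))) (D : Finset (Fin n)) (v : Fin n) : ℕ :=
  (D.filter fun u => s(v, u) ∈ C).card

/-- Twice the number of the selected pairs in `D`. -/
def EE (C : Finset (Sym2 (Fin n))) (D : Finset (Fin n)) : ℕ := ∑ v ∈ D, nb C D v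

/-- No loops. -/
def NoD (C : Finset (Sym2 (Fin n))) : Prop := ∀ e ∈ C, ¬ e.IsDiag

theorem NoD.self {C : Finset (Sym2 (Fin n))} (h : NoD C) (v : Fin n) : s(v, v) ∉ C :=
  fun h1 => h _ h1 (Sym2.mk_isDiag_iff.2 rfl)

theorem NoD.insert {C : Finset (Sym2 (Fin n))} (h : NoD C) {e : Sym2 (Fin n)} (he : ¬ e.IsDiag) :
    NoD (insert e C) := by
  intro f hf
  rcases Finset.mem_insert.1 hf with rfl | h1
  · exact he
  · exact h f h1

theorem NoD.union {C D : Finset (Sym2 (Fin n))} (h : NoD C) (h' : NoD D) : NoD (C ∪ D) := by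
  intro f hf
  rcases Finset.mem_union.1 hf with h1 | h1
  · exact h f h1
  · exact h' f h1

theorem deg_insert {A : Finset (Sym2 (Fin n))} {e : Sym2 (Fin n)} (he : e ∉ A) (v : Fin n) :
    deg (insert e A) v = deg A v + if v ∈ e then 1 else 0 := by
  unfold deg
  rw [Finset.filter_insert]
  split_ifs with h
  · rw [Finset.card_insert_of_notMem (fun h1 => he (Finset.mem_filter.1 h1).1)]
  · rfl

theorem handshake {A : Finset (Sym2 (Fin n))} (hA : NoD A) : ∑ v, deg A v = 2 * A.card := by
  unfold deg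
  simp only [Finset.card_filter]
  rw [Finset.sum_comm]
  rw [Finset.sum_const_nat (m := 2)]
  · ring
  intro e he
  have h1 := Sym2.card_toFinset_of_not_isDiag e (hA e he)
  rw [← h1, ← Finset.card_filter]
  congr 1
  ext v
  simp

theorem nb_le_deg (C : Finset (Sym2 (Fin n))) (D : Finset (Fin n)) (v : Fin n) :
    nb C D v ≤ deg C v := by
  unfold nb deg
  refine Finset.card_le_card_of_injOn (fun u => s(v, u)) ?_ ?_
  · intro u hu
    have h1 := (Finset.mem_filter.1 (Finset.mem_coe.1 hu)).2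
    exact Finset.mem_coe.2 (Finset.mem_filter.2 ⟨h1, Sym2.mem_mk_left _ _⟩)
  · intro u _ w _ h
    exact Sym2.congr_right.1 h

theorem deg_union_le (A B : Finset (Sym2 (Fin n))) (v : Fin n) :
    deg (A ∪ B) v ≤ deg A v + deg B v := by
  unfold deg
  rw [Finset.filter_union]
  exact Finset.card_union_le _ _

theorem nb_erase {C : Finset (Sym2 (Fin n))} {D : Finset (Fin n)} {x : Fin n} (hx : x ∈ D)
    (v : Fin n) : nb C D v = nb C (D.erase x) v + if s(v, x) ∈ C then 1 else 0 := by
  unfold nb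
  conv_lhs => rw [← Finset.insert_erase hx]
  rw [Finset.filter_insert]
  split_ifs with h
  · rw [Finset.card_insert_of_notMem (fun h1 => by simp at h1)]
  · rfl

theorem nb_erase_le (C : Finset (Sym2 (Fin n))) (D : Finset (Fin n)) (x v : Fin n) :
    nb C (D.erase x) v ≤ nb C D v := by
  unfold nb
  exact Finset.card_le_card (Finset.filter_subset_filter _ (Finset.erase_subset _ _))

theorem EE_erase {C : Finset (Sym2 (Fin n))} (hC : NoD C) {D : Finset (Fin n)} {x : Fin n}
    (hx : x ∈ D) : EE C D = EE C (D.erase x) + 2 * nb C D x := by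
  unfold EE
  rw [← Finset.sum_erase_add _ _ hx]
  have h1 : ∑ v ∈ D.erase x, nb C D v =
      ∑ v ∈ D.erase x, nb C (D.erase x) v + ∑ v ∈ D.erase x, if s(v, x) ∈ C then 1 else 0 := by
    rw [← Finset.sum_add_distrib]
    exact Finset.sum_congr rfl fun v _ => nb_erase hx v
  have h2 : (∑ v ∈ D.erase x, if s(v, x) ∈ C then 1 else 0) = nb C D x := by
    rw [nb_erase hx x, if_neg (hC.self x), add_zero]
    unfold nb
    rw [Finset.card_filter]
    refine Finset.sum_congr rfl fun v _ => ?_
    rw [Sym2.eq_swap]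
  rw [h1, h2]
  ring

theorem nb_insert_le (C : Finset (Sym2 (Fin n))) (D : Finset (Fin n)) (e : Sym2 (Fin n))
    (v : Fin n) : nb (insert e C) D v ≤ nb C D v + if v ∈ e then 1 else 0 := by
  unfold nb
  have h1 : (D.filter fun u => s(v, u) ∈ insert e C) ⊆
      (D.filter fun u => s(v, u) ∈ C) ∪ (D.filter fun u => s(v, u) = e) := by
    intro u hu
    rcases Finset.mem_filter.1 hu with ⟨h2, h3⟩
    rcases Finset.mem_insert.1 h3 with h4 | h4
    · exact Finset.mem_union_right _ (Finset.mem_filter.2 ⟨h2, h4⟩)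
    · exact Finset.mem_union_left _ (Finset.mem_filter.2 ⟨h2, h4⟩)
  refine (Finset.card_le_card h1).trans ((Finset.card_union_le _ _).trans ?_)
  refine Nat.add_le_add_left ?_ _
  split_ifs with h
  · refine Finset.card_le_one.2 fun a ha b hb => ?_
    have ha' := (Finset.mem_filter.1 ha).2
    have hb' := (Finset.mem_filter.1 hb).2
    exact Sym2.congr_right.1 (ha'.trans hb'.symm)
  · rw [Nat.le_zero, Finset.card_eq_zero, Finset.filter_eq_empty_iff]
    intro u _ h2
    exact h (h2 ▸ Sym2.mem_mk_left _ _)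

theorem nb_insert_le' (C : Finset (Sym2 (Fin n))) (D : Finset (Fin n)) (e : Sym2 (Fin n))
    (v : Fin n) : nb (insert e C) D v ≤ nb C D v + 1 := by
  refine (nb_insert_le C D e v).trans ?_
  split_ifs <;> omega

theorem EE_insert_le (C : Finset (Sym2 (Fin n))) (D : Finset (Fin n)) {e : Sym2 (Fin n)}
    (he : ¬ e.IsDiag) : EE (insert e C) D ≤ EE C D + 2 := by
  unfold EE
  refine (Finset.sum_le_sum fun v _ => nb_insert_le C D e v).trans ?_
  rw [Finset.sum_add_distrib]
  refine Nat.add_le_add_left ?_ _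
  rw [← Finset.card_filter, ← Sym2.card_toFinset_of_not_isDiag e he]
  refine Finset.card_le_card fun v hv => ?_
  exact Sym2.mem_toFinset.2 (Finset.mem_filter.1 hv).2

/-- Inserting a pair with an end outside of `D` changes nothing. -/
theorem nb_insert_out {C : Finset (Sym2 (Fin n))} {D : Finset (Fin n)} {x z : Fin n}
    (hx : x ∉ D) (hz : z ∉ D) {v : Fin n} (hv : v ∈ D) :
    nb (insert s(x, z) C) D v = nb C D v := by
  unfold nb
  congr 1
  refine Finset.filter_congr fun u hu => ?_
  rw [Finset.mem_insert]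
  constructor
  · rintro (h | h)
    · rcases Sym2.eq_iff.1 h with ⟨h1, -⟩ | ⟨h1, -⟩
      · exact absurd (h1 ▸ hv) hx
      · exact absurd (h1 ▸ hv) hz
    · exact h
  · exact fun h => Or.inr h

theorem EE_insert_out {C : Finset (Sym2 (Fin n))} {D : Finset (Fin n)} {x z : Fin n}
    (hx : x ∉ D) (hz : z ∉ D) : EE (insert s(x, z) C) D = EE C D := by
  unfold EE
  exact Finset.sum_congr rfl fun v hv => nb_insert_out hx hz hv

/-- A vertex with less selected neighbours than other vertices in `M` has a free partner. -/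
theorem exists_free {C : Finset (Sym2 (Fin n))} {M : Finset (Fin n)} {v : Fin n}
    (h : nb C M v < (M.erase v).card) : ∃ u ∈ M, u ≠ v ∧ s(v, u) ∉ C := by
  by_contra hcon
  push Not at hcon
  have h1 : M.erase v ⊆ M.filter fun u => s(v, u) ∈ C := by
    intro u hu
    rcases Finset.mem_erase.1 hu with ⟨h2, h3⟩
    exact Finset.mem_filter.2 ⟨h3, hcon u h3 h2⟩
  have h2 := Finset.card_le_card h1
  unfold nb at h
  omega

/-- **The pair**: a vertex `x` of maximal degree in `D` and a free partner `z` of maximal degree.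
`m` and `q` are their degrees. After both are removed from `D` every degree is at most `m - 1` or at
most `q`. -/
theorem exists_pair {C : Finset (Sym2 (Fin n))} (hC : NoD C) {D : Finset (Fin n)}
    (h2 : 2 ≤ D.card) (hmax : ∀ v ∈ D, nb C D v + 2 ≤ D.card) :
    ∃ x ∈ D, ∃ z ∈ D, z ≠ x ∧ s(x, z) ∉ C ∧ (∀ v ∈ D, nb C D v ≤ nb C D x) ∧
      EE C D + (nb C D x + 1) * nb C D z ≤
        nb C D x * (nb C D x + 1) + D.card * nb C D z ∧
      ∀ v ∈ (D.erase x).erase z, nb C ((D.erase x).erase z) v + 1 ≤ nb C D x ∨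
        nb C ((D.erase x).erase z) v ≤ nb C D z := by
  obtain ⟨x, hx, hxm⟩ := Finset.exists_max_image D (nb C D)
    (Finset.card_pos.1 (by omega))
  have hcx : (D.erase x).card = D.card - 1 := Finset.card_erase_of_mem hx
  obtain ⟨z0, hz0, hne0, hfr0⟩ := exists_free (C := C) (M := D) (v := x)
    (by have := hmax x hx; rw [hcx]; omega)
  obtain ⟨z, hz, hzm⟩ := Finset.exists_max_image (D.filter fun u => u ≠ x ∧ s(x, u) ∉ C)
    (nb C D) ⟨z0, Finset.mem_filter.2 ⟨hz0, hne0, hfr0⟩⟩
  obtain ⟨hzD, hzx, hzf⟩ := Finset.mem_filter.1 hz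
  refine ⟨x, hx, z, hzD, hzx, hzf, hxm, ?_, ?_⟩
  · set m := nb C D x with hm
    set q := nb C D z with hq
    have hqm : q ≤ m := hxm z hzD
    -- the sum over the selected neighbours and `x`, and over the others
    have hsplit : EE C D = ∑ v ∈ D.filter (fun u => u ≠ x ∧ s(x, u) ∉ C), nb C D v +
        ∑ v ∈ D.filter (fun u => ¬ (u ≠ x ∧ s(x, u) ∉ C)), nb C D v := by
      unfold EE
      rw [Finset.sum_filter_add_sum_filter_not]
    have hcard2 : (D.filter fun u => ¬ (u ≠ x ∧ s(x, u) ∉ C)).card = m + 1 := by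
      have h3 : (D.filter fun u => ¬ (u ≠ x ∧ s(x, u) ∉ C)) =
          insert x (D.filter fun u => s(x, u) ∈ C) := by
        ext u
        simp only [Finset.mem_filter, Finset.mem_insert, not_and_or, not_not]
        constructor
        · rintro ⟨h4, h5 | h5⟩
          · exact Or.inl h5
          · exact Or.inr ⟨h4, h5⟩
        · rintro (h4 | ⟨h4, h5⟩)
          · exact ⟨h4 ▸ hx, Or.inl h4⟩
          · exact ⟨h4, Or.inr h5⟩
      rw [h3, Finset.card_insert_of_notMem]
      · rfl
      · intro h4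
        exact hC.self x (Finset.mem_filter.1 h4).2
    have hcard1 : (D.filter fun u => u ≠ x ∧ s(x, u) ∉ C).card + (m + 1) = D.card := by
      rw [← hcard2]
      exact Finset.card_filter_add_card_filter_not _
    have hs1 : ∑ v ∈ D.filter (fun u => u ≠ x ∧ s(x, u) ∉ C), nb C D v ≤
        (D.filter fun u => u ≠ x ∧ s(x, u) ∉ C).card * q := by
      rw [← smul_eq_mul]
      exact Finset.sum_le_card_nsmul _ _ _ fun v hv => hzm v hv
    have hs2 : ∑ v ∈ D.filter (fun u => ¬ (u ≠ x ∧ s(x, u) ∉ C)), nb C D v ≤ (m + 1) * m := by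
      rw [← hcard2, ← smul_eq_mul]
      exact Finset.sum_le_card_nsmul _ _ _ fun v hv => hxm v (Finset.mem_filter.1 hv).1
    obtain ⟨N, hN⟩ : ∃ N, (D.filter fun u => u ≠ x ∧ s(x, u) ∉ C).card = N := ⟨_, rfl⟩
    rw [hN] at hcard1 hs1
    rw [hsplit, ← hcard1]
    nlinarith [hs1, hs2]
  · intro v hv
    have hvD : v ∈ D := Finset.mem_of_mem_erase (Finset.mem_of_mem_erase hv)
    have hvx : v ≠ x := (Finset.mem_erase.1 (Finset.mem_of_mem_erase hv)).1
    have h3 : nb C ((D.erase x).erase z) v ≤ nb C (D.erase x) v := nb_erase_le _ _ _ _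
    have h4 := nb_erase (C := C) hx v
    by_cases h5 : s(x, v) ∈ C
    · left
      rw [Sym2.eq_swap, if_pos h5] at h4
      have h6 := hxm v hvD
      omega
    · right
      have h6 := hzm v (Finset.mem_filter.2 ⟨hvD, hvx, h5⟩)
      omega

end Pool.Agent.W_258ae1_h35
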