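import Mathlib

/-!
The `(k + 1)`-star avoidance game on the complete graph `K_n` (MP_258ae1_co): definitions.
-/

namespace Pool.Agent.W_258ae1_h35

/-- The number of the edges in the set `A` which contain the vertex `v`. -/
def deg {n : ℕ} (A : Finset (Sym2 (Fin n))) (v : Fin n) : ℕ := (A.filter fun e => v ∈ e).card

/-- The set of edges `A` contains a star with `k + 1` edges. -/
def HasStar {n : ℕ} (k : ℕ) (A : Finset (Sym2 (Fin n))) : Prop := ∃ v, k + 1 ≤ deg A v

/-- `e` is an edge of `K_n` which has not been selected: `R` and `B` are the sets of the edges which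
have been selected by PI and by PII. -/
def Free {n : ℕ} (R B : Finset (Sym2 (Fin n))) (e : Sym2 (Fin n)) : Prop :=
  ¬ e.IsDiag ∧ e ∉ R ∧ e ∉ B

/-- `WinII k R B`: PII has a winning strategy in the `(k + 1)`-star avoidance game from the position
in which PI has the edges `R`, PII has the edges `B`, nobody has lost and PI is to move. There is a
free edge (else the game is a draw), and to every free edge `e` PII has a reply `r e`: if `e` does
not give PI a star, then `r e` is free, does not give PII a star and leads to a won position. -/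
inductive WinII {n : ℕ} (k : ℕ) : Finset (Sym2 (Fin n)) → Finset (Sym2 (Fin n)) → Prop
  | intro (R B : Finset (Sym2 (Fin n))) (hex : ∃ e, Free R B e)
      (r : Sym2 (Fin n) → Sym2 (Fin n))
      (hr : ∀ e, Free R B e → ¬ HasStar k (insert e R) →
        Free (insert e R) B (r e) ∧ ¬ HasStar k (insert (r e) B))
      (h : ∀ e, Free R B e → ¬ HasStar k (insert e R) → WinII k (insert e R) (insert (r e) B)) :
      WinII k R B

/-- PII wins the `(k + 1)`-star avoidance game on `K_n`. -/
def PIIWins (k n : ℕ) : Prop := WinII k (∅ : Finset (Sym2 (Fin n))) ∅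

/-- The number `h(k)` of the problem: the smallest `m ≥ 1` such that PII wins on `K_n` for all
`n ≥ m` (`n ≥ 2`). -/
noncomputable def hStar (k : ℕ) : ℕ := sInf {m : ℕ | 1 ≤ m ∧ ∀ n : ℕ, m ≤ n → 2 ≤ n → PIIWins k n}

end Pool.Agent.W_258ae1_h35
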