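import Pool.Agent.W_258ae1_h35.Cls

/-!
The `(k + 1)`-star avoidance game: the last round (every vertex needs at most one more edge of PII).
-/

namespace Pool.Agent.W_258ae1_h35

open Finset

variable {n k : ℕ}

/-- The general facts on a position with PI to move. -/
structure Pos (k : ℕ) (R B : Finset (Sym2 (Fin n))) : Prop where
  dR : NoD R
  dB : NoD B
  disj : ∀ e ∈ R, e ∉ B
  hR : ∀ v, deg R v ≤ k
  hB : ∀ v, deg B v ≤ k
  card : R.card = B.card

/-- The vertices which are not saturated for PII. -/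
def Un (k : ℕ) (B : Finset (Sym2 (Fin n))) : Finset (Fin n) := univ.filter fun v => deg B v < k

theorem mem_Un {B : Finset (Sym2 (Fin n))} {v : Fin n} : v ∈ Un k B ↔ deg B v < k := by
  simp [Un]

theorem not_star {A : Finset (Sym2 (Fin n))} : ¬ HasStar k A ↔ ∀ v, deg A v ≤ k := by
  unfold HasStar
  push Not
  exact forall_congr' fun v => by omega

theorem free_exists (hn : 2 * k + 2 ≤ n) {R B : Finset (Sym2 (Fin n))} (hP : Pos k R B) :
    ∃ e, Free R B e := by
  have h0 : 0 < n := by omega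
  have h1 : nb (R ∪ B) univ ⟨0, h0⟩ < ((univ : Finset (Fin n)).erase ⟨0, h0⟩).card := by
    rw [Finset.card_erase_of_mem (Finset.mem_univ _), Finset.card_univ, Fintype.card_fin]
    have h2 := nb_le_deg (R ∪ B) univ ⟨0, h0⟩
    have h3 := deg_union_le R B ⟨0, h0⟩
    have h4 := hP.hR ⟨0, h0⟩
    have h5 := hP.hB ⟨0, h0⟩
    omega
  obtain ⟨u, -, hu, hf⟩ := exists_free h1
  refine ⟨s(⟨0, h0⟩, u), ?_, ?_, ?_⟩
  · rw [Sym2.mk_isDiag_iff]
    exact fun h => hu h.symm
  · exact fun h => hf (Finset.mem_union_left _ h)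
  · exact fun h => hf (Finset.mem_union_right _ h)

theorem Pos.step {R B : Finset (Sym2 (Fin n))} (hP : Pos k R B) {e f : Sym2 (Fin n)}
    (he : Free R B e) (hR : ∀ v, deg (insert e R) v ≤ k) (hf : Free (insert e R) B f)
    (hB : ∀ v, deg (insert f B) v ≤ k) : Pos k (insert e R) (insert f B) := by
  refine ⟨hP.dR.insert he.1, hP.dB.insert hf.1, ?_, hR, hB, ?_⟩
  · intro g hg hg'
    rcases Finset.mem_insert.1 hg' with rfl | h1
    · exact hf.2.1 hg
    · rcases Finset.mem_insert.1 hg with rfl | h2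
      · exact he.2.2 h1
      · exact hP.disj g h2 h1
  · rw [Finset.card_insert_of_notMem he.2.1, Finset.card_insert_of_notMem hf.2.2, hP.card]

/-- One round of the game. -/
theorem win_of (hn : 2 * k + 2 ≤ n) {R B : Finset (Sym2 (Fin n))} (hP : Pos k R B)
    (h : ∀ e, Free R B e → (∀ v, deg (insert e R) v ≤ k) → ∃ f, Free (insert e R) B f ∧
      (∀ v, deg (insert f B) v ≤ k) ∧ WinII k (insert e R) (insert f B)) : WinII k R B := by
  classical
  have h' : ∀ e, ∃ f, Free R B e → (∀ v, deg (insert e R) v ≤ k) → Free (insert e R) B f ∧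
      (∀ v, deg (insert f B) v ≤ k) ∧ WinII k (insert e R) (insert f B) := by
    intro e
    by_cases h1 : Free R B e ∧ ∀ v, deg (insert e R) v ≤ k
    · obtain ⟨f, hf⟩ := h e h1.1 h1.2
      exact ⟨f, fun _ _ => hf⟩
    · exact ⟨e, fun h2 h3 => absurd ⟨h2, h3⟩ h1⟩
  choose r hr using h'
  refine WinII.intro R B (free_exists hn hP) r (fun e he hs => ?_) fun e he hs => ?_
  · obtain ⟨h1, h2, -⟩ := hr e he (not_star.1 hs)
    exact ⟨h1, not_star.2 h2⟩
  · exact (hr e he (not_star.1 hs)).2.2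

/-- The number of the moves of PII which are left. -/
theorem sum_Un {B : Finset (Sym2 (Fin n))} (hB : NoD B) (h1 : ∀ v, deg B v ≤ k)
    (h2 : ∀ v, k ≤ deg B v + 1) : 2 * B.card + (Un k B).card = n * k := by
  rw [← handshake hB]
  unfold Un
  rw [Finset.card_filter, ← Finset.sum_add_distrib]
  have : ∀ v ∈ (univ : Finset (Fin n)), (deg B v + if deg B v < k then 1 else 0) = k := by
    intro v _
    have := h1 v
    have := h2 v
    split_ifs <;> omega
  rw [Finset.sum_congr rfl this, Finset.sum_const, Finset.card_univ, Fintype.card_fin, smul_eq_mul]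

/-- The total budget which PI has after his move. -/
theorem sum_R {R B : Finset (Sym2 (Fin n))} (hP : Pos k R B) (h2 : ∀ v, k ≤ deg B v + 1)
    {e : Sym2 (Fin n)} (he : Free R B e) (hR : ∀ v, deg (insert e R) v ≤ k) :
    (∑ v, (k - deg (insert e R) v)) + 2 = (Un k B).card := by
  have h3 := handshake (hP.dR.insert he.1)
  rw [Finset.card_insert_of_notMem he.2.1, hP.card] at h3
  have h4 := sum_Un hP.dB hP.hB h2
  have h5 : ∑ v, (k - deg (insert e R) v) + ∑ v, deg (insert e R) v = n * k := by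
    rw [← Finset.sum_add_distrib]
    have : ∀ v ∈ (univ : Finset (Fin n)), (k - deg (insert e R) v + deg (insert e R) v) = k :=
      fun v _ => Nat.sub_add_cancel (hR v)
    rw [Finset.sum_congr rfl this, Finset.sum_const, Finset.card_univ, Fintype.card_fin,
      smul_eq_mul]
  omega

/-- At most one vertex is not saturated: PI has no safe move. -/
theorem win01 (hn : 2 * k + 2 ≤ n) {R B : Finset (Sym2 (Fin n))} (hP : Pos k R B)
    (h2 : ∀ v, k ≤ deg B v + 1) (hc : (Un k B).card ≤ 1) : WinII k R B := by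
  refine win_of hn hP fun e he hR => ?_
  have := sum_R hP h2 he hR
  omega

/-- The reply `s(x, z)` of PII for two vertices which are not saturated. -/
theorem reply {R B : Finset (Sym2 (Fin n))} (hP : Pos k R B) (h2 : ∀ v, k ≤ deg B v + 1)
    {e : Sym2 (Fin n)} {x z : Fin n} (hx : x ∈ Un k B) (hz : z ∈ Un k B) (hzx : z ≠ x)
    (hfr : s(x, z) ∉ insert e (R ∪ B)) :
    Free (insert e R) B s(x, z) ∧ (∀ v, deg (insert s(x, z) B) v ≤ k) ∧
      (∀ v, k ≤ deg (insert s(x, z) B) v + 1) ∧
      Un k (insert s(x, z) B) = ((Un k B).erase x).erase z := by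
  have hx' := mem_Un.1 hx
  have hz' := mem_Un.1 hz
  have hB : s(x, z) ∉ B := fun h =>
    hfr (Finset.mem_insert_of_mem (Finset.mem_union_right _ h))
  have hd : ∀ v, deg (insert s(x, z) B) v = deg B v + if v ∈ s(x, z) then 1 else 0 :=
    fun v => deg_insert hB v
  refine ⟨⟨?_, ?_, hB⟩, ?_, ?_, ?_⟩
  · rw [Sym2.mk_isDiag_iff]
    exact fun h => hzx h.symm
  · intro h
    rcases Finset.mem_insert.1 h with h1 | h1
    · exact hfr (h1 ▸ Finset.mem_insert_self _ _)
    · exact hfr (Finset.mem_insert_of_mem (Finset.mem_union_left _ h1))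
  · intro v
    rw [hd v]
    have := hP.hB v
    split_ifs with h
    · rcases Sym2.mem_iff.1 h with rfl | rfl <;> omega
    · omega
  · intro v
    rw [hd v]
    have := h2 v
    omega
  · ext v
    rw [mem_Un, hd v, Finset.mem_erase, Finset.mem_erase, mem_Un]
    have h5 := h2 v
    split_ifs with h
    · rcases Sym2.mem_iff.1 h with rfl | rfl
      · simp
        omega
      · simp
        omega
    · have h6 : v ≠ x := fun h7 => h (h7 ▸ Sym2.mem_mk_left _ _)
      have h7 : v ≠ z := fun h7 => h (h7 ▸ Sym2.mem_mk_right _ _)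
      simp [h6, h7]

theorem union_ins (e : Sym2 (Fin n)) (R B : Finset (Sym2 (Fin n))) :
    insert e R ∪ B = insert e (R ∪ B) := Finset.insert_union e R B

theorem union_ins2 (e f : Sym2 (Fin n)) (R B : Finset (Sym2 (Fin n))) :
    insert e R ∪ insert f B = insert f (insert e (R ∪ B)) := by
  rw [Finset.union_insert, Finset.insert_union]

/-- Two or three vertices are not saturated: PII can play `s(c, d)` in his next move. -/
theorem win2 (hn : 2 * k + 2 ≤ n) {R B : Finset (Sym2 (Fin n))} (hP : Pos k R B)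
    (h2 : ∀ v, k ≤ deg B v + 1) {c d : Fin n} (hcd : d ≠ c) (hc : c ∈ Un k B) (hd : d ∈ Un k B)
    (hU : (Un k B).card ≤ 3) (hfr : s(c, d) ∉ R ∪ B) (hb : ¬ (deg R c < k ∧ deg R d < k)) :
    WinII k R B := by
  refine win_of hn hP fun e he hR => ?_
  have hne : e ≠ s(c, d) := by
    rintro rfl
    have h3 := hR c
    have h4 := hR d
    rw [deg_insert he.2.1, if_pos (Sym2.mem_mk_left _ _)] at h3
    rw [deg_insert he.2.1, if_pos (Sym2.mem_mk_right _ _)] at h4
    exact hb ⟨by omega, by omega⟩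
  have hfr' : s(c, d) ∉ insert e (R ∪ B) := by
    rw [Finset.mem_insert, not_or]
    exact ⟨fun h => hne h.symm, hfr⟩
  obtain ⟨h3, h4, h5, h6⟩ := reply hP h2 hc hd hcd hfr'
  refine ⟨s(c, d), h3, h4, win01 hn (hP.step he hR h3 h4) h5 ?_⟩
  rw [h6]
  have := card_erase2 hc hd hcd
  omega

/-- Four or five vertices are not saturated. -/
theorem win4 (hn : 2 * k + 2 ≤ n) {R B : Finset (Sym2 (Fin n))} (hP : Pos k R B)
    (h2 : ∀ v, k ≤ deg B v + 1) {D : Finset (Fin n)} (hDU : D ⊆ Un k B) (hc : D.card = 4)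
    (hU : (Un k B).card ≤ 5) (hE : EE (R ∪ B) D ≤ 3) : WinII k R B := by
  refine win_of hn hP fun e he hR => ?_
  set C := insert e (R ∪ B) with hCd
  have hC : NoD C := (hP.dR.union hP.dB).insert he.1
  have h3 : EE C D ≤ 5 := (EE_insert_le (R ∪ B) D he.1).trans (by omega)
  have h4 : ∀ v ∈ D, nb C D v + 2 ≤ D.card := by
    intro v hv
    have := two_nb_le hC hv
    omega
  obtain ⟨x, hx, z, hz, hzx, hfr, hm, -⟩ := exists_pair hC (by omega) h4
  have h5 := red hC hx hz hzx hfr
  have h6 := card_erase2 hx hz hzx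
  obtain ⟨c, d, hcd, hD2⟩ := Finset.card_eq_two.1 (show ((D.erase x).erase z).card = 2 by omega)
  have hcm : c ∈ (D.erase x).erase z := by rw [hD2]; simp
  have hdm : d ∈ (D.erase x).erase z := by rw [hD2]; simp
  obtain ⟨hcz, hcx, hcD⟩ : c ≠ z ∧ c ≠ x ∧ c ∈ D := by
    simpa [Finset.mem_erase] using hcm
  obtain ⟨hdz, hdx, hdD⟩ : d ≠ z ∧ d ≠ x ∧ d ∈ D := by
    simpa [Finset.mem_erase] using hdm
  have hfr2 : s(c, d) ∉ C := by
    intro hcon
    -- `c`, `d` have degree one at least
    have g1 : 1 ≤ nb C ((D.erase x).erase z) c :=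
      Finset.card_pos.2 ⟨d, Finset.mem_filter.2 ⟨hdm, hcon⟩⟩
    have g3 := two_nb_le hC hcm
    have g4 : nb C ((D.erase x).erase z) c ≤ nb C D c :=
      (nb_erase_le _ _ _ _).trans (nb_erase_le _ _ _ _)
    have g5 := hm c hcD
    have g6 : EE C D = nb C D x + nb C D z + nb C D c + nb C D d := by
      have h7 : D = {x, z, c, d} := by
        rw [← Finset.insert_erase hx, ← Finset.insert_erase (Finset.mem_erase.2 ⟨hzx, hz⟩), hD2]
      unfold EE
      conv_lhs => rw [h7]
      rw [Finset.sum_insert (by simp [hzx.symm, hcx.symm, hdx.symm]),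
        Finset.sum_insert (by simp [hcz.symm, hdz.symm]), Finset.sum_insert (by simp [hcd]),
        Finset.sum_singleton]
      rw [← h7]
      ring
    have g7 := hm d hdD
    omega
  have hbud := sum_R hP h2 he hR
  have hmain : ∀ x z c d : Fin n, x ∈ D → z ∈ D → c ∈ D → d ∈ D → z ≠ x → d ≠ c → c ≠ x → c ≠ z →
      d ≠ x → d ≠ z → s(x, z) ∉ C → s(c, d) ∉ C →
      ¬ (deg (insert e R) c < k ∧ deg (insert e R) d < k) →
      ∃ f, Free (insert e R) B f ∧ (∀ v, deg (insert f B) v ≤ k) ∧
        WinII k (insert e R) (insert f B) := by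
    intro x z c d hx hz hcD hdD hzx hdc hcx hcz hdx hdz hfr hfr2 hb
    obtain ⟨h8, h9, h10, h11⟩ := reply hP h2 (hDU hx) (hDU hz) hzx hfr
    have h12 := card_erase2 (hDU hx) (hDU hz) hzx
    refine ⟨s(x, z), h8, h9, win2 hn (hP.step he hR h8 h9) h10 hdc ?_ ?_ ?_ ?_ hb⟩
    · rw [h11, Finset.mem_erase, Finset.mem_erase]
      exact ⟨hcz, hcx, hDU hcD⟩
    · rw [h11, Finset.mem_erase, Finset.mem_erase]
      exact ⟨hdz, hdx, hDU hdD⟩
    · rw [h11]
      omega
    · rw [union_ins2, Finset.mem_insert, not_or]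
      refine ⟨?_, hfr2⟩
      intro h12
      rcases Sym2.eq_iff.1 h12 with ⟨h13, -⟩ | ⟨h13, -⟩
      · exact hcx h13
      · exact hcz h13
  by_cases hb : deg (insert e R) c < k ∧ deg (insert e R) d < k
  · -- PI may take `cd`: PII takes it
    refine hmain c d x z hcD hdD hx hz hcd.symm hzx hcx.symm hdx.symm hcz.symm hdz.symm hfr2 hfr ?_
    rintro ⟨h8, h9⟩
    have h10 : ∑ v ∈ ({c, d, x, z} : Finset (Fin n)), (k - deg (insert e R) v) ≤
        ∑ v, (k - deg (insert e R) v) :=
      Finset.sum_le_sum_of_subset (Finset.subset_univ _)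
    rw [Finset.sum_insert (by simp [hcd, hcx, hcz]), Finset.sum_insert (by simp [hdx, hdz]),
      Finset.sum_insert (by simp [hzx.symm]), Finset.sum_singleton] at h10
    omega
  · exact hmain x z c d hx hz hcD hdD hzx hcd.symm hcx hcz hdx hdz hfr hfr2 hb

/-- **The last round.** -/
theorem last (hn : 2 * k + 2 ≤ n) :
    ∀ (h : ℕ) (R B : Finset (Sym2 (Fin n))) (D : Finset (Fin n)), 2 ≤ h → Pos k R B →
      (∀ v, k ≤ deg B v + 1) → D ⊆ Un k B → (Un k B).card ≤ D.card + 1 → Cls (R ∪ B) D h →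
      WinII k R B := by
  intro h
  induction h with
  | zero =>
    intro R B D h0
    omega
  | succ h ih =>
    intro R B D hh hP h2 hDU hU H
    have hC0 := hP.dR.union hP.dB
    have hcard := H.card
    rcases Nat.lt_or_ge h 2 with h3 | h3
    · obtain rfl : h = 1 := by omega
      have h4 := H.A
      exact win4 hn hP h2 hDU (by omega) (by omega) (by omega)
    · refine win_of hn hP fun e he hR => ?_
      obtain ⟨x, hx, z, hz, hzx, hfr, H'⟩ := H.step hC0 hh he.1
      obtain ⟨h8, h9, h10, h11⟩ := reply hP h2 (hDU hx) (hDU hz) hzx hfr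
      have h12 := card_erase2 (hDU hx) (hDU hz) hzx
      have h13 := card_erase2 hx hz hzx
      have hxo : x ∉ (D.erase x).erase z := by simp
      have hzo : z ∉ (D.erase x).erase z := by simp
      refine ⟨s(x, z), h8, h9, ih _ _ ((D.erase x).erase z) h3 (hP.step he hR h8 h9) h10 ?_ ?_ ?_⟩
      · rw [h11]
        exact Finset.erase_subset_erase _ (Finset.erase_subset_erase _ hDU)
      · rw [h11]
        omega
      · rw [union_ins2]
        exact H'.out hxo hzo

end Pool.Agent.W_258ae1_h35
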