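import Pool.Agent.W_258ae1_h35.Last

/-!
The `(k + 1)`-star avoidance game: PII wins on `K_n` for all `n ≥ 8 k`.
-/

namespace Pool.Agent.W_258ae1_h35

open Finset

variable {n k : ℕ}

/-- The vertices at which PII has exactly `m` edges. -/
def Lv (m : ℕ) (B : Finset (Sym2 (Fin n))) : Finset (Fin n) := univ.filter fun v => deg B v = m

theorem mem_Lv {B : Finset (Sym2 (Fin n))} {v : Fin n} {m : ℕ} : v ∈ Lv m B ↔ deg B v = m := by
  simp [Lv]

/-- The levels of the earlier rounds. -/
structure AI (k β : ℕ) (B : Finset (Sym2 (Fin n))) : Prop where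
  le : β + 2 ≤ k
  lo : ∀ v, β ≤ deg B v
  hi : ∀ v, deg B v ≤ β + 2

/-- The first mode: PII matches the vertices of the lowest level. -/
def M1 (β : ℕ) (R B : Finset (Sym2 (Fin n))) : Prop :=
  (Lv (β + 2) B).card = 0 ∧ ∃ (h : ℕ) (D : Finset (Fin n)), 2 ≤ h ∧ D ⊆ Lv β B ∧
    (Lv β B).card ≤ D.card + 1 ∧ Cls (R ∪ B) D h

theorem card_Lv {β : ℕ} {B : Finset (Sym2 (Fin n))} (h : AI k β B) :
    (Lv β B).card + (Lv (β + 1) B).card + (Lv (β + 2) B).card = n := by
  have h1 : (univ : Finset (Fin n)) = (Lv β B ∪ Lv (β + 1) B) ∪ Lv (β + 2) B := by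
    ext v
    simp only [Finset.mem_univ, Finset.mem_union, mem_Lv, true_iff]
    have := h.lo v
    have := h.hi v
    omega
  have h2 : Disjoint (Lv β B ∪ Lv (β + 1) B) (Lv (β + 2) B) := by
    rw [Finset.disjoint_left]
    intro v hv hv'
    simp only [Finset.mem_union, mem_Lv] at hv hv'
    omega
  have h3 : Disjoint (Lv β B) (Lv (β + 1) B) := by
    rw [Finset.disjoint_left]
    intro v hv hv'
    simp only [mem_Lv] at hv hv'
    omega
  rw [← Finset.card_union_of_disjoint h3, ← Finset.card_union_of_disjoint h2, ← h1,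
    Finset.card_univ, Fintype.card_fin]

/-- If the lowest level is empty, then the next one has `8 k - 2` vertices. -/
theorem next_card (hn : 8 * k ≤ n) {β : ℕ} {B : Finset (Sym2 (Fin n))} (hB : NoD B)
    (hA : AI k β B) (h0 : (Lv β B).card = 0) (h3 : (Lv (β + 2) B).card ≤ 3) :
    8 * k ≤ (Lv (β + 1) B).card + 2 := by
  have hcard := card_Lv hA
  have hs := handshake hB
  have h1 : ∑ v, deg B v = n * (β + 1) + (Lv (β + 2) B).card := by
    unfold Lv
    rw [Finset.card_filter]
    have h2 : ∀ v ∈ (univ : Finset (Fin n)),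
        deg B v = (β + 1) + if deg B v = β + 2 then 1 else 0 := by
      intro v _
      have h4 := hA.lo v
      have h5 := hA.hi v
      have h6 : v ∉ Lv β B := by
        rw [Finset.card_eq_zero.1 h0]
        simp
      rw [mem_Lv] at h6
      split_ifs <;> omega
    conv_lhs => rw [Finset.sum_congr rfl h2]
    rw [Finset.sum_add_distrib, Finset.sum_const, Finset.card_univ, Fintype.card_fin, smul_eq_mul]
  rcases Nat.eq_or_lt_of_le hn with h4 | h4
  · have h5 : n * (β + 1) = 8 * (k * (β + 1)) := by
      rw [← h4]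
      ring
    rw [h5] at h1
    omega
  · omega

/-- The levels after a move of PII. -/
theorem Lv_insert {B : Finset (Sym2 (Fin n))} {x z : Fin n}
    (hf : s(x, z) ∉ B) (m : ℕ) (v : Fin n) : v ∈ Lv m (insert s(x, z) B) ↔
      (v = x ∨ v = z) ∧ deg B v + 1 = m ∨ (v ≠ x ∧ v ≠ z) ∧ deg B v = m := by
  rw [mem_Lv, deg_insert hf]
  by_cases h : v ∈ s(x, z)
  · rw [if_pos h]
    rw [Sym2.mem_iff] at h
    constructor
    · exact fun h1 => Or.inl ⟨h, h1⟩
    · rintro (⟨-, h1⟩ | ⟨⟨h1, h2⟩, -⟩)
      · exact h1
      · exact absurd h (by simp [h1, h2])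
  · rw [if_neg h]
    rw [Sym2.mem_iff, not_or] at h
    constructor
    · exact fun h1 => Or.inr ⟨h, h1⟩
    · rintro (⟨h1, -⟩ | ⟨-, h1⟩)
      · exact absurd h1 (by simp [h.1, h.2])
      · exact h1

/-- A reply inside of the lowest level. -/
theorem Lv_low {β : ℕ} {B : Finset (Sym2 (Fin n))} {x z : Fin n} (hx : x ∈ Lv β B)
    (hz : z ∈ Lv β B) (hf : s(x, z) ∉ B) :
    Lv β (insert s(x, z) B) = ((Lv β B).erase x).erase z ∧
      Lv (β + 2) (insert s(x, z) B) = Lv (β + 2) B := by
  have hx' := mem_Lv.1 hx
  have hz' := mem_Lv.1 hz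
  constructor
  · ext v
    rw [Lv_insert hf, Finset.mem_erase, Finset.mem_erase, mem_Lv]
    constructor
    · rintro (⟨h2 | h2, h3⟩ | ⟨⟨h2, h3⟩, h4⟩)
      · rw [h2] at h3
        omega
      · rw [h2] at h3
        omega
      · exact ⟨h3, h2, h4⟩
    · rintro ⟨h2, h3, h4⟩
      exact Or.inr ⟨⟨h3, h2⟩, h4⟩
  · ext v
    rw [Lv_insert hf, mem_Lv]
    constructor
    · rintro (⟨h2 | h2, h3⟩ | ⟨-, h4⟩)
      · rw [h2] at h3
        omega
      · rw [h2] at h3
        omega
      · exact h4
    · intro h2
      refine Or.inr ⟨⟨?_, ?_⟩, h2⟩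
      · rintro rfl
        omega
      · rintro rfl
        omega

/-- A reply between the lowest level and the next one. -/
theorem Lv_mixed {β : ℕ} {B : Finset (Sym2 (Fin n))} {x z : Fin n} (hx : x ∈ Lv β B)
    (hz : z ∈ Lv (β + 1) B) (hf : s(x, z) ∉ B) :
    (Lv β (insert s(x, z) B)).card + 1 ≤ (Lv β B).card ∧
      (Lv (β + 2) (insert s(x, z) B)).card ≤ (Lv (β + 2) B).card + 1 := by
  have hx' := mem_Lv.1 hx
  have hz' := mem_Lv.1 hz
  constructor
  · rw [← Finset.card_erase_add_one hx]
    refine Nat.add_le_add_right (Finset.card_le_card fun v hv => ?_) 1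
    rw [Lv_insert hf] at hv
    rw [Finset.mem_erase, mem_Lv]
    rcases hv with ⟨h2 | h2, h3⟩ | ⟨⟨h2, -⟩, h3⟩
    · rw [h2] at h3
      omega
    · rw [h2] at h3
      omega
    · exact ⟨h2, h3⟩
  · refine (Finset.card_le_card (t := insert z (Lv (β + 2) B)) fun v hv => ?_).trans
      (Finset.card_insert_le _ _)
    rw [Lv_insert hf] at hv
    rw [Finset.mem_insert, mem_Lv]
    rcases hv with ⟨h2 | h2, h3⟩ | ⟨-, h3⟩
    · rw [h2] at h3
      omega
    · exact Or.inl h2
    · exact Or.inr h3

/-- The degrees at the lower levels. -/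
theorem deg_low {R B : Finset (Sym2 (Fin n))} (hR : ∀ v, deg R v ≤ k) {v : Fin n}
    (hv : deg B v + 1 ≤ k) (M : Finset (Fin n)) : nb (R ∪ B) M v + 1 ≤ 2 * k := by
  have h1 := nb_le_deg (R ∪ B) M v
  have h2 := deg_union_le R B v
  have h3 := hR v
  omega

/-- **The earlier rounds.** -/
theorem early (hk : 1 ≤ k) (hn : 8 * k ≤ n) :
    ∀ (N : ℕ) (R B : Finset (Sym2 (Fin n))) (β : ℕ), n * k - B.card = N → Pos k R B →
      AI k β B → (M1 β R B ∨ (Lv β B).card + (Lv (β + 2) B).card ≤ 3) → WinII k R B := by
  intro N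
  induction N using Nat.strong_induction_on with
  | _ N ih =>
    -- the lowest level is not empty
    have hmain : ∀ (R B : Finset (Sym2 (Fin n))) (β : ℕ), n * k - B.card = N → Pos k R B →
        AI k β B → (M1 β R B ∨ 1 ≤ (Lv β B).card ∧ (Lv β B).card + (Lv (β + 2) B).card ≤ 3) →
        WinII k R B := by
      intro R B β hN hP hA hM
      have hcard := card_Lv hA
      have hBn : B.card < n * k := by
        have h1 := handshake hP.dB
        have h2 : ∑ v, deg B v ≤ n * k := by
          calc ∑ v, deg B v ≤ ∑ _v : Fin n, k := Finset.sum_le_sum fun v _ => hP.hB v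
            _ = n * k := by rw [Finset.sum_const, Finset.card_univ, Fintype.card_fin, smul_eq_mul]
        have h3 : 0 < n * k := Nat.mul_pos (by omega) (by omega)
        omega
      refine win_of (by omega) hP fun e he hR => ?_
      have hC0 : NoD (R ∪ B) := hP.dR.union hP.dB
      have hfreeB : ∀ x z : Fin n, s(x, z) ∉ insert e (R ∪ B) → s(x, z) ∉ B := fun x z h h' =>
        h (Finset.mem_insert_of_mem (Finset.mem_union_right _ h'))
      -- the reply `s(x, z)` with `deg x = β` and `deg z ≤ β + 1`
      have hreply : ∀ x z : Fin n, x ∈ Lv β B → deg B z ≤ β + 1 → z ≠ x →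
          s(x, z) ∉ insert e (R ∪ B) →
          (M1 β (insert e R) (insert s(x, z) B) ∨ (Lv β (insert s(x, z) B)).card +
            (Lv (β + 2) (insert s(x, z) B)).card ≤ 3) →
          ∃ f, Free (insert e R) B f ∧ (∀ v, deg (insert f B) v ≤ k) ∧
            WinII k (insert e R) (insert f B) := by
        intro x z hx hz hzx hfr hM'
        have hfB := hfreeB x z hfr
        have hx' := mem_Lv.1 hx
        have hA' : AI k β (insert s(x, z) B) := by
          refine ⟨hA.le, fun v => ?_, fun v => ?_⟩
          · rw [deg_insert hfB]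
            have := hA.lo v
            omega
          · rw [deg_insert hfB]
            have := hA.hi v
            split_ifs with h
            · rcases Sym2.mem_iff.1 h with rfl | rfl <;> omega
            · omega
        have hfree : Free (insert e R) B s(x, z) := by
          refine ⟨?_, ?_, hfB⟩
          · rw [Sym2.mk_isDiag_iff]
            exact fun h => hzx h.symm
          · intro h
            rcases Finset.mem_insert.1 h with h1 | h1
            · exact hfr (h1 ▸ Finset.mem_insert_self _ _)
            · exact hfr (Finset.mem_insert_of_mem (Finset.mem_union_left _ h1))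
        have hle : ∀ v, deg (insert s(x, z) B) v ≤ k := fun v => (hA'.hi v).trans hA.le
        refine ⟨s(x, z), hfree, hle, ih (n * k - (insert s(x, z) B).card) ?_ _ _ β rfl
          (hP.step he hR hfree hle) hA' hM'⟩
        rw [Finset.card_insert_of_notMem hfB]
        omega
      rcases hM with ⟨hq, h, D, hh, hD, hLD, H⟩ | ⟨hpos, hM⟩
      · -- the first mode
        obtain ⟨x, hx, z, hz, hzx, hfr, H'⟩ := H.step hC0 hh he.1
        have hfB := hfreeB x z hfr
        obtain ⟨hL1, hL2⟩ := Lv_low (hD hx) (hD hz) hfB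
        have hz' := mem_Lv.1 (hD hz)
        have h12 := card_erase2 (hD hx) (hD hz) hzx
        have h13 := card_erase2 hx hz hzx
        have h14 := H.card
        have hxo : x ∉ (D.erase x).erase z := by simp
        have hzo : z ∉ (D.erase x).erase z := by simp
        refine hreply x z (hD hx) (by omega) hzx hfr ?_
        rcases Nat.lt_or_ge h 3 with h3 | h3
        · right
          rw [hL1, hL2]
          omega
        · left
          refine ⟨by rw [hL2]; exact hq, h - 1, (D.erase x).erase z, by omega, ?_, ?_, ?_⟩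
          · rw [hL1]
            exact Finset.erase_subset_erase _ (Finset.erase_subset_erase _ hD)
          · rw [hL1]
            omega
          · rw [union_ins2]
            exact H'.out hxo hzo
      · -- the second mode
        by_cases hcl : ∃ x ∈ Lv β B, ∃ z ∈ Lv β B, z ≠ x ∧ s(x, z) ∉ insert e (R ∪ B)
        · obtain ⟨x, hx, z, hz, hzx, hfr⟩ := hcl
          have hfB := hfreeB x z hfr
          obtain ⟨hL1, hL2⟩ := Lv_low hx hz hfB
          have hz' := mem_Lv.1 hz
          have h12 := card_erase2 hx hz hzx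
          refine hreply x z hx (by omega) hzx hfr (Or.inr ?_)
          rw [hL1, hL2]
          omega
        · obtain ⟨x, hx⟩ := Finset.card_pos.1 hpos
          have hx' := mem_Lv.1 hx
          have h3 : x ∉ Lv (β + 1) B := by
            rw [mem_Lv]
            omega
          obtain ⟨z, hz, hzx, hfr⟩ := exists_free (C := insert e (R ∪ B)) (M := Lv (β + 1) B)
            (v := x) (by
              rw [Finset.erase_eq_of_notMem h3]
              have h4 := deg_low (B := B) hR (v := x)
                (by have := hA.le; omega) (Lv (β + 1) B)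
              rw [union_ins] at h4
              omega)
          have hz' := mem_Lv.1 hz
          have hfB := hfreeB x z hfr
          obtain ⟨h5, h6⟩ := Lv_mixed hx hz hfB
          exact hreply x z hx (by omega) hzx hfr (Or.inr (by omega))
    intro R B β hN hP hA hM
    rcases hM with hM | hM
    · exact hmain R B β hN hP hA (Or.inl hM)
    rcases Nat.eq_zero_or_pos (Lv β B).card with h0 | h0
    swap
    · exact hmain R B β hN hP hA (Or.inr ⟨h0, hM⟩)
    -- the next round
    have hlo : ∀ v, β + 1 ≤ deg B v := by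
      intro v
      have h1 := hA.lo v
      have h2 : v ∉ Lv β B := by
        rw [Finset.card_eq_zero.1 h0]
        simp
      rw [mem_Lv] at h2
      omega
    have hle := hA.le
    have hL := next_card hn hP.dB hA h0 (by omega)
    obtain ⟨h, D, hh, hD, hLD, H⟩ := Cls.start (C := R ∪ B) hk hL (fun v hv => by
      have h1 := mem_Lv.1 hv
      exact deg_low hP.hR (by omega) _)
    rcases Nat.lt_or_ge (β + 2) k with h3 | h3
    · refine hmain R B (β + 1) hN hP ⟨by omega, hlo, fun v => (hA.hi v).trans (by omega)⟩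
        (Or.inl ⟨?_, h, D, hh, hD, hLD, H⟩)
      rw [Finset.card_eq_zero, Finset.eq_empty_iff_forall_notMem]
      intro v hv
      have := mem_Lv.1 hv
      have := hA.hi v
      omega
    · have h5 : Un k B = Lv (β + 1) B := by
        ext v
        rw [mem_Un, mem_Lv]
        have := hlo v
        have := hA.hi v
        omega
      refine last (by omega) h R B D hh hP (fun v => by have := hlo v; omega) ?_ ?_ H
      · rw [h5]
        exact hD
      · rw [h5]
        exact hLD

theorem deg_empty (v : Fin n) : deg (∅ : Finset (Sym2 (Fin n))) v = 0 := by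
  simp [deg]

theorem pos_empty : Pos k (∅ : Finset (Sym2 (Fin n))) ∅ :=
  ⟨fun e he => absurd he (by simp), fun e he => absurd he (by simp), fun e he => absurd he (by simp),
    fun v => by rw [deg_empty]; omega, fun v => by rw [deg_empty]; omega, rfl⟩

/-- **PII wins the `(k + 1)`-star avoidance game on `K_n` for all `n ≥ 8 k`.** -/
theorem main (hk : 1 ≤ k) (hn : 8 * k ≤ n) : PIIWins k n := by
  unfold PIIWins
  have hu : (univ : Finset (Fin n)).card = n := by rw [Finset.card_univ, Fintype.card_fin]
  obtain ⟨h, D, hh, hD, hLD, H⟩ := Cls.start (C := (∅ : Finset (Sym2 (Fin n))) ∪ ∅)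
    (L := (univ : Finset (Fin n))) hk (by omega) (fun v _ => by simp [nb]; omega)
  rcases Nat.lt_or_ge k 2 with h1 | h1
  · have hk1 : k = 1 := by omega
    subst hk1
    have h2 : Un 1 (∅ : Finset (Sym2 (Fin n))) = univ := by
      ext v
      rw [mem_Un, deg_empty]
      simp
    refine last (by omega) h ∅ ∅ D hh pos_empty (fun v => by omega) ?_ ?_ H
    · rw [h2]
      exact hD
    · rw [h2]
      exact hLD
  · have h2 : Lv 0 (∅ : Finset (Sym2 (Fin n))) = univ := by
      ext v
      rw [mem_Lv, deg_empty]
      simp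
    refine early hk hn _ ∅ ∅ 0 rfl pos_empty ⟨by omega, fun v => Nat.zero_le _,
      fun v => by rw [deg_empty]; omega⟩ (Or.inl ⟨?_, h, D, hh, ?_, ?_, H⟩)
    · rw [Finset.card_eq_zero, Finset.eq_empty_iff_forall_notMem]
      intro v hv
      have h3 := mem_Lv.1 hv
      rw [deg_empty] at h3
      omega
    · rw [h2]
      exact hD
    · rw [h2]
      exact hLD

end Pool.Agent.W_258ae1_h35
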